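import Pool.Agent.Run7.h376.HT.LOC

set_option autoImplicit false

/-! # FLIP: exchange of the diagonals of a convex quadrilateral -/

namespace Run7.h651.HT.FLIP

open Run7.h397 Run7.h397.HT Run7.h376.HT

variable {V : Type} {P : V → Pt} {T : SimpleGraph V}

theorem X_comm {i j k l : V} : X P i j k l ↔ X P k l i j := cr_comm _ _ _ _
theorem X_sw1 {i j k l : V} : X P i j k l ↔ X P j i k l := cr_swap1 _ _ _ _
theorem X_sw2 {i j k l : V} : X P i j k l ↔ X P i j l k := cr_swap2 _ _ _ _

/-- the triangle `a c d` of the quadrilateral is empty -/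
theorem emp_acd (hP : GP P) {a b c d : V} (hab : a ≠ b) (h1 : Emp P a b c) (h2 : Emp P a b d)
    (hX : X P a b c d) : Emp P a c d := by
  intro x hx
  have key : ∀ {c d : V}, 0 < orient (P a) (P b) (P c) → orient (P a) (P b) (P d) < 0 →
      Emp P a b c → Emp P a b d → X P a b c d → InTri (P a) (P c) (P d) (P x) → False := by
    intro c d hc hd h1 h2 hX hx
    rcases emp_quad hc hd hX hx with h | h | h
    · have hax : a ≠ x := by
        rintro rfl
        have := hx.1
        simp at this
      have hbx : b ≠ x := by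
        rintro rfl
        obtain ⟨g1, g2⟩ := cr_pos hd hc ((cr_swap2 _ _ _ _).1 hX).2
        -- `b` is on the other side of `c d`
        have e1 := hx.2.1
        have e2 : orient (P c) (P d) (P b) = - orient (P d) (P c) (P b) := orient_swap _ _ _
        have e3 : orient (P a) (P c) (P d) = - orient (P d) (P c) (P a) := by
          unfold orient; ring
        rw [e2, e3] at e1
        nlinarith [mul_pos g1 (neg_pos.2 g2)]
      exact hP.col a b x hab hax hbx h
    · exact h1 x h
    · exact h2 x h
  rcases neg_cases hX.1 with ⟨f1, f2⟩ | ⟨f1, f2⟩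
  · exact key f2 f1 h2 h1 (X_sw2.1 hX) (inTri_cyc (inTri_swap hx) |> fun h => by
      exact h)
  · exact key f1 f2 h1 h2 hX hx

theorem flip : S_FLIP := by
  intro V _ P hP T hT a b c d hc hd hX
  obtain ⟨hab, hac, hbc, hEc⟩ := hc
  obtain ⟨-, had, hbd, hEd⟩ := hd
  have hne_ab : a ≠ b := hab.ne
  have hcd : c ≠ d := by
    rintro rfl
    have := hX.1
    nlinarith [mul_self_nonneg (orient (P a) (P b) (P c))]
  have hncd : ¬ T.Adj c d := fun h => hT.1 a b c d hab h hX
  have hE1 : Emp P a c d := emp_acd hP hne_ab hEc hEd hX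
  have hE2 : Emp P b c d := emp_acd hP hne_ab.symm (fun x hx => hEc x (inTri_swap hx))
    (fun x hx => hEd x (inTri_swap hx)) (X_sw1.1 hX)
  have hor : orient (P a) (P b) (P c) ≠ 0 := hP.col a b c hne_ab hac.ne hbc.ne
  have hor' : orient (P a) (P b) (P d) ≠ 0 := hP.col a b d hne_ab had.ne hbd.ne
  -- an edge crossing `c d` is `a b`
  have key : ∀ k l, T.Adj k l → X P c d k l → s(k, l) = s(a, b) := by
    intro k l hkl hx
    have hend : ∀ e : V, Emp P e c d → T.Adj e c → T.Adj e d → e ≠ c → e ≠ d →
        k = e ∨ l = e := by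
      intro e hE hec hed h1 h2
      have ho : orient (P c) (P d) (P e) ≠ 0 := hP.col c d e hcd h1.symm h2.symm
      have hE' : ∀ x, ¬ InTri (P c) (P d) (P e) (P x) := fun x hx' => hE x (inTri_cyc (inTri_cyc hx'))
      rcases exit' hP ho hx (hE' k) (hE' l) with h | h | h | h
      · exact Or.inl h
      · exact Or.inr h
      · exact absurd h (hT.1 d e k l hed.symm hkl)
      · exact absurd h (hT.1 e c k l hec hkl)
    have ha := hend a hE1 hac had hac.ne had.ne
    have hb := hend b hE2 hbc hbd hbc.ne hbd.ne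
    rcases ha with ha | ha <;> rcases hb with hb | hb
    · exact absurd (ha.symm.trans hb) hne_ab
    · rw [ha, hb]
    · rw [ha, hb, Sym2.eq_swap]
    · exact absurd (ha.symm.trans hb) hne_ab
  let T₁ : SimpleGraph V :=
    { Adj := fun i j => (T.Adj i j ∧ s(i, j) ≠ s(a, b)) ∨ s(i, j) = s(c, d)
      symm := by
        constructor
        intro i j h
        rcases h with h | h
        · exact Or.inl ⟨h.1.symm, by rw [Sym2.eq_swap]; exact h.2⟩
        · exact Or.inr (by rw [Sym2.eq_swap]; exact h)
      loopless := by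
        constructor
        intro i h
        rcases h with h | h
        · exact T.loopless.irrefl i h.1
        · rw [Sym2.eq_iff] at h
          rcases h with ⟨h1, h2⟩ | ⟨h1, h2⟩
          · exact hcd (h1.symm.trans h2)
          · exact hcd (h2.symm.trans h1) }
  have hadj : ∀ i j, T₁.Adj i j ↔ (T.Adj i j ∧ s(i, j) ≠ s(a, b)) ∨ s(i, j) = s(c, d) :=
    fun _ _ => Iff.rfl
  have hXcd : ∀ i j k l, s(i, j) = s(c, d) → (X P i j k l ↔ X P c d k l) := by
    intro i j k l h
    rw [Sym2.eq_iff] at h
    rcases h with ⟨rfl, rfl⟩ | ⟨rfl, rfl⟩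
    · exact Iff.rfl
    · exact X_sw1
  refine ⟨T₁, ⟨hab, hncd, hcd, hadj⟩, ?_, ?_⟩
  · intro i j k l h1 h2 hx
    rw [hadj] at h1 h2
    rcases h1 with h1 | h1 <;> rcases h2 with h2 | h2
    · exact hT.1 i j k l h1.1 h2.1 hx
    · have h3 : X P c d i j := (hXcd k l i j h2).1 (X_comm.1 hx)
      exact h1.2 (key i j h1.1 h3)
    · have h3 : X P c d k l := (hXcd i j k l h1).1 hx
      exact h2.2 (key k l h2.1 h3)
    · have h3 : X P c d k l := (hXcd i j k l h1).1 hx
      have h4 : X P c d c d := (hXcd k l c d h2).1 (X_comm.1 h3)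
      have := h4.1
      simp at this
  · intro i j hij hmax
    rw [hadj]
    by_cases hx : X P i j a b
    · right
      have hnot : ∀ k l, T.Adj k l → s(k, l) ≠ s(a, b) → ¬ X P i j k l := fun k l h1 h2 =>
        hmax k l ((hadj k l).2 (Or.inl ⟨h1, h2⟩))
      have hend : ∀ e : V, Emp P a b e → T.Adj a e → T.Adj b e →
          orient (P a) (P b) (P e) ≠ 0 → i = e ∨ j = e := by
        intro e hE hae hbe ho
        rcases exit' hP ho (X_comm.1 hx) (hE i) (hE j) with h | h | h | h
        · exact Or.inl h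
        · exact Or.inr h
        · exact absurd (X_comm.1 h) (hnot b e hbe (by
            rw [Ne, Sym2.eq_iff]
            rintro (⟨h1, -⟩ | ⟨-, h1⟩)
            · exact hne_ab h1.symm
            · exact hae.ne h1.symm))
        · exact absurd (X_comm.1 h) (hnot e a hae.symm (by
            rw [Ne, Sym2.eq_iff]
            rintro (⟨h1, -⟩ | ⟨h1, -⟩)
            · exact hae.ne h1.symm
            · exact hbe.ne h1.symm))
      rcases hend c hEc hac hbc hor with h1 | h1 <;> rcases hend d hEd had hbd hor' with h2 | h2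
      · exact absurd (h1.symm.trans h2) hcd
      · rw [h1, h2]
      · rw [h1, h2, Sym2.eq_swap]
      · exact absurd (h1.symm.trans h2) hcd
    · left
      have h1 : T.Adj i j := by
        refine hT.2 i j hij fun k l hkl hx' => ?_
        by_cases h2 : s(k, l) = s(a, b)
        · rw [Sym2.eq_iff] at h2
          rcases h2 with ⟨rfl, rfl⟩ | ⟨rfl, rfl⟩
          · exact hx hx'
          · exact hx (X_sw2.1 hx')
        · exact hmax k l ((hadj k l).2 (Or.inl ⟨hkl, h2⟩)) hx'
      refine ⟨h1, fun h2 => ?_⟩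
      have h3 : X P c d i j := by
        rw [Sym2.eq_iff] at h2
        rcases h2 with ⟨rfl, rfl⟩ | ⟨rfl, rfl⟩
        · exact X_comm.1 hX
        · exact X_sw2.1 (X_comm.1 hX)
      exact hmax c d ((hadj c d).2 (Or.inr rfl)) (X_comm.1 h3)

end Run7.h651.HT.FLIP
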