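import Pool.Agent.Run7.h397.HT.Iface

set_option autoImplicit false

/-! # TURN: abstract lemma on closed strips of triangles -/

namespace Run7.h651.HT.TURN

open Run7.h397 Run7.h397.HT

theorem crs_self (a : Pt) : crs a a = 0 := by unfold crs; ring

theorem crs_neg (a b : Pt) : crs a b = -crs b a := by unfold crs; ring

/-- the Plücker identity -/
theorem plu (a b c d : Pt) : crs a b * crs c d - crs a c * crs b d + crs a d * crs b c = 0 := by
  unfold crs; ring

theorem pos_of {p q : ℝ} (hp : 0 < p) (h : 0 < p * q) : 0 < q := (pos_iff_pos_of_mul_pos h).1 hp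

theorem turn : S_TURN := by
  intro a b d A L hL ha hb h0 h1 h2
  -- the sign of `s i`
  have hs : ∀ i < L, 0 ≤ crs (b i) (a i) → 0 < crs (b (i + 1)) (a (i + 1)) := by
    intro i hi hsi
    obtain ⟨p1, p2⟩ := h0 i hi
    by_cases hA : A i
    · obtain ⟨q1, q2, q3⟩ := h1 i hi hA
      rw [q1]
      have e : crs (a i) (d i) * crs (b i) (a (i + 1)) =
          crs (a (i + 1)) (d i) * crs (b i) (a i) + crs (a i) (a (i + 1)) * crs (b i) (d i) := by
        unfold crs; ring
      refine pos_of p1 ?_
      rw [e]
      have := mul_nonneg q3.le hsi
      have := mul_pos q2 p2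
      linarith
    · obtain ⟨q1, q2, q3⟩ := h2 i hi hA
      rw [q1]
      have e : crs (b i) (d i) * crs (b (i + 1)) (a i) =
          crs (b (i + 1)) (d i) * crs (b i) (a i) + crs (b (i + 1)) (b i) * crs (a i) (d i) := by
        unfold crs; ring
      refine pos_of p2 ?_
      rw [e]
      have := mul_nonneg q3.le hsi
      have := mul_pos q2 p1
      linarith
  have hs' : ∀ i, i ≤ L → 0 ≤ crs (b i) (a i) → ∀ j, i < j → j ≤ L → 0 < crs (b j) (a j) := by
    intro i hi hsi j hij hj
    induction j, hij using Nat.le_induction with
    | base => exact hs i (by omega) hsi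
    | succ m hm ih => exact hs m (by omega) (ih (by omega)).le
  rcases lt_or_ge (crs (b 0) (a 0)) 0 with hneg | hpos
  · -- all negative
    have hall : ∀ i ≤ L, 0 < crs (a i) (b i) := by
      intro i hi
      rw [crs_neg]
      by_contra hc
      push Not at hc
      have hc' : 0 ≤ crs (b i) (a i) := by linarith
      rcases hi.eq_or_lt with h | h
      · rw [h, ha, hb] at hc'
        linarith
      · have := hs' i hi hc' L h le_rfl
        rw [ha, hb] at this
        linarith
    have key : ∀ i ≤ L, 0 < crs (a 0) (b i) ∧ 0 < crs (a i) (b 0) ∧ 0 ≤ crs (a 0) (a i) ∧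
        0 ≤ crs (b i) (b 0) ∧ (0 < i → 0 < crs (a 0) (a i) ∨ 0 < crs (b i) (b 0)) := by
      intro i
      induction i with
      | zero =>
        intro _
        exact ⟨hall 0 (by omega), hall 0 (by omega), by rw [crs_self], by rw [crs_self],
          fun h => absurd h (lt_irrefl _)⟩
      | succ i ih =>
        intro hi
        obtain ⟨k1, k2, k3, k4, -⟩ := ih (by omega)
        have hi' : i < L := by omega
        have pi := hall i (by omega)
        have pi' := hall (i + 1) hi
        by_cases hA : A i
        · obtain ⟨q1, q2, -⟩ := h1 i hi' hA
          rw [q1] at pi' ⊢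
          have e1 : crs (a i) (b i) * crs (a (i + 1)) (b 0) =
              crs (a (i + 1)) (b i) * crs (a i) (b 0) + crs (a i) (a (i + 1)) * crs (b i) (b 0) := by
            unfold crs; ring
          have e2 : crs (a i) (b i) * crs (a 0) (a (i + 1)) =
              crs (a (i + 1)) (b i) * crs (a 0) (a i) + crs (a i) (a (i + 1)) * crs (a 0) (b i) := by
            unfold crs; ring
          have r1 : 0 < crs (a (i + 1)) (b 0) := by
            refine pos_of pi ?_
            rw [e1]
            have := mul_pos pi' k2
            have := mul_nonneg q2.le k4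
            linarith
          have r2 : 0 < crs (a 0) (a (i + 1)) := by
            refine pos_of pi ?_
            rw [e2]
            have := mul_nonneg pi'.le k3
            have := mul_pos q2 k1
            linarith
          exact ⟨k1, r1, r2.le, k4, fun _ => Or.inl r2⟩
        · obtain ⟨q1, q2, -⟩ := h2 i hi' hA
          rw [q1] at pi' ⊢
          have e1 : crs (a i) (b i) * crs (a 0) (b (i + 1)) =
              crs (b (i + 1)) (b i) * crs (a 0) (a i) + crs (a i) (b (i + 1)) * crs (a 0) (b i) := by
            unfold crs; ring
          have e2 : crs (a i) (b i) * crs (b (i + 1)) (b 0) =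
              crs (b (i + 1)) (b i) * crs (a i) (b 0) + crs (a i) (b (i + 1)) * crs (b i) (b 0) := by
            unfold crs; ring
          have r1 : 0 < crs (a 0) (b (i + 1)) := by
            refine pos_of pi ?_
            rw [e1]
            have := mul_nonneg q2.le k3
            have := mul_pos pi' k1
            linarith
          have r2 : 0 < crs (b (i + 1)) (b 0) := by
            refine pos_of pi ?_
            rw [e2]
            have := mul_pos q2 k2
            have := mul_nonneg pi'.le k4
            linarith
          exact ⟨r1, k2, k3, r2.le, fun _ => Or.inr r2⟩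
    obtain ⟨-, -, -, -, h⟩ := key L le_rfl
    rw [ha, hb, crs_self, crs_self] at h
    rcases h hL with h | h <;> exact lt_irrefl _ h
  · -- all positive
    have hall : ∀ i ≤ L, 0 < crs (b i) (a i) := by
      have hLp := hs' 0 (by omega) hpos L hL le_rfl
      intro i hi
      rcases Nat.eq_zero_or_pos i with h | h
      · rw [h, ← ha, ← hb]; exact hLp
      · exact hs' 0 (by omega) hpos i h hi
    have key : ∀ m ≤ L, 0 < crs (b L) (a (L - m)) ∧ 0 < crs (b (L - m)) (a L) ∧
        0 ≤ crs (a (L - m)) (a L) ∧ 0 ≤ crs (b L) (b (L - m)) ∧
        (0 < m → 0 < crs (a (L - m)) (a L) ∨ 0 < crs (b L) (b (L - m))) := by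
      intro m
      induction m with
      | zero =>
        intro _
        rw [Nat.sub_zero]
        exact ⟨hall L le_rfl, hall L le_rfl, by rw [crs_self], by rw [crs_self],
          fun h => absurd h (lt_irrefl _)⟩
      | succ m ih =>
        intro hm
        obtain ⟨k1, k2, k3, k4, -⟩ := ih (by omega)
        obtain ⟨i, hi⟩ : ∃ i, L - (m + 1) = i := ⟨_, rfl⟩
        have hi1 : L - m = i + 1 := by omega
        have hi' : i < L := by omega
        rw [hi1] at k1 k2 k3 k4
        rw [hi]
        have pi := hall i (by omega)
        have pi' := hall (i + 1) (by omega)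
        by_cases hA : A i
        · obtain ⟨q1, q2, -⟩ := h1 i hi' hA
          rw [q1] at k2 k4 pi'
          have e1 : crs (b i) (a (i + 1)) * crs (b L) (a i) =
              crs (a i) (a (i + 1)) * crs (b L) (b i) + crs (b i) (a i) * crs (b L) (a (i + 1)) := by
            unfold crs; ring
          have e2 : crs (b i) (a (i + 1)) * crs (a i) (a L) =
              crs (a i) (a (i + 1)) * crs (b i) (a L) + crs (b i) (a i) * crs (a (i + 1)) (a L) := by
            unfold crs; ring
          have r1 : 0 < crs (b L) (a i) := by
            refine pos_of pi' ?_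
            rw [e1]
            have := mul_nonneg q2.le k4
            have := mul_pos pi k1
            linarith
          have r2 : 0 < crs (a i) (a L) := by
            refine pos_of pi' ?_
            rw [e2]
            have := mul_pos q2 k2
            have := mul_nonneg pi.le k3
            linarith
          exact ⟨r1, k2, r2.le, k4, fun _ => Or.inl r2⟩
        · obtain ⟨q1, q2, -⟩ := h2 i hi' hA
          rw [q1] at k1 k3 pi'
          have e1 : crs (b (i + 1)) (a i) * crs (b i) (a L) =
              crs (b i) (a i) * crs (b (i + 1)) (a L) + crs (b (i + 1)) (b i) * crs (a i) (a L) := by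
            unfold crs; ring
          have e2 : crs (b (i + 1)) (a i) * crs (b L) (b i) =
              crs (b i) (a i) * crs (b L) (b (i + 1)) + crs (b (i + 1)) (b i) * crs (b L) (a i) := by
            unfold crs; ring
          have r1 : 0 < crs (b i) (a L) := by
            refine pos_of pi' ?_
            rw [e1]
            have := mul_pos pi k2
            have := mul_nonneg q2.le k3
            linarith
          have r2 : 0 < crs (b L) (b i) := by
            refine pos_of pi' ?_
            rw [e2]
            have := mul_nonneg pi.le k4
            have := mul_pos q2 k1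
            linarith
          exact ⟨k1, r1, k3, r2.le, fun _ => Or.inr r2⟩
    obtain ⟨-, -, -, -, h⟩ := key L le_rfl
    rw [Nat.sub_self, ← ha, ← hb, crs_self, crs_self] at h
    rcases h hL with h | h <;> exact lt_irrefl _ h

end Run7.h651.HT.TURN
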