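import Pool.Agent.Run7.h651.HT.ISEC
import Pool.Agent.Run7.h651.HT.TURN
import Pool.Agent.Run7.h376.HT.SEC

set_option autoImplicit false

/-! # STRIP: some face at a maximal edge has no other maximal side -/

namespace Run7.h651.HT.STRIP

open Run7.h397 Run7.h397.HT Run7.h376.HT

variable {V : Type} {P : V → Pt} {T T' : SimpleGraph V}

theorem neg_cases' {x y : ℝ} (h : x * y < 0) : (x < 0 ∧ 0 < y) ∨ (0 < x ∧ y < 0) := by
  rcases lt_trichotomy x 0 with hx | hx | hx
  · exact Or.inl ⟨hx, by by_contra hc; push Not at hc; nlinarith [mul_nonneg_of_nonpos_of_nonpos hx.le hc]⟩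
  · rw [hx, zero_mul] at h; exact absurd h (lt_irrefl _)
  · exact Or.inr ⟨hx, by by_contra hc; push Not at hc; nlinarith [mul_nonneg hx.le hc]⟩

/-- the orientation of three vertices -/
def O (P : V → Pt) (w x y : V) : ℝ := orient (P w) (P x) (P y)

theorem plu (w a b c d : V) :
    O P w a b * O P w c d - O P w a c * O P w b d + O P w a d * O P w b c = 0 := by
  unfold O orient; ring

theorem O_swap (w x y : V) : O P w x y = -O P w y x := by
  unfold O orient; ring

theorem O_cyc (w x y : V) : O P w x y = O P x y w := by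
  unfold O orient; ring

theorem O_swap1 (w x y : V) : O P w x y = -O P x w y := by
  unfold O orient; ring

/-- the invariant -/
def Inv (P : V → Pt) (T' : SimpleGraph V) (s : ℝ) (p w z : V) : Prop :=
  ∃ q₁ q₂, T'.Adj w q₁ ∧ T'.Adj w q₂ ∧ 0 < s * O P w q₁ q₂ ∧ 0 < s * O P w q₁ z ∧
    0 < s * O P w z q₂ ∧ 0 ≤ s * O P w q₁ p ∧ 0 ≤ s * O P w p q₂ ∧ 0 < s * O P w z p

section

variable [Fintype V] (hP : GP P) (hT : IsTri P T) (hT' : IsTri P T')

include hP hT hT'

theorem not_in {a b c q : V} (hM : MaxE P T T' a b) (hF : Face P T a b c) (hq : T'.Adj a q)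
    (h1 : 0 < O P a b q * O P a b c) : O P a q c * O P a b c ≤ 0 := by
  by_contra h2
  push Not at h2
  exact Run7.h651.HT.ISEC.isec V P hP T T' hT hT' a b c q hM hF hq h1 h2

theorem L2gen {s : ℝ} {p w z q₁ q₂ : V} (hM : MaxE P T T' w z) (hF : Face P T w z p)
    (h1 : T'.Adj w q₁) (h2 : T'.Adj w q₂) (g1 : 0 < s * O P w q₁ q₂) (g2 : 0 < s * O P w q₁ z)
    (g3 : 0 < s * O P w z q₂) (g4 : 0 < s * O P w z p) : Inv P T' s p w z := by
  have hs : 0 < s ^ 2 := by
    have : s ≠ 0 := by
      rintro rfl
      simp at g1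
    positivity
  have k1 : 0 < O P w z q₂ * O P w z p := by
    have h := mul_pos g3 g4
    have e : s * O P w z q₂ * (s * O P w z p) = s ^ 2 * (O P w z q₂ * O P w z p) := by ring
    rw [e] at h
    exact (pos_iff_pos_of_mul_pos h).1 hs
  have k2 := not_in hP hT hT' hM hF h2 k1
  have k3 : 0 ≤ s * O P w p q₂ := by
    rw [O_swap w p q₂]
    by_contra hc
    push Not at hc
    have h3 : 0 < s * O P w q₂ p := by linarith
    have h := mul_pos h3 g4
    have e : s * O P w q₂ p * (s * O P w z p) = s ^ 2 * (O P w q₂ p * O P w z p) := by ring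
    rw [e] at h
    have := (pos_iff_pos_of_mul_pos h).1 hs
    linarith
  refine ⟨q₁, q₂, h1, h2, g1, g2, g3, ?_, k3, g4⟩
  -- `[q₁,p][z,q₂] = [q₁,z][p,q₂] + [q₁,q₂][z,p]`
  have e := plu (P := P) w q₁ z p q₂
  have e2 : (s * O P w q₁ p) * (s * O P w z q₂) =
      (s * O P w q₁ z) * (s * O P w p q₂) + (s * O P w q₁ q₂) * (s * O P w z p) := by
    linear_combination (-(s ^ 2)) * e
  have h3 := mul_nonneg g2.le k3
  have h4 := mul_pos g1 g4
  by_contra hc
  push Not at hc
  have := mul_neg_of_neg_of_pos hc g3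
  linarith

theorem L2 {s : ℝ} (hs : s = 1 ∨ s = -1) {p w z : V} (hM : MaxE P T T' w z)
    (hF : Face P T w z p) (g : 0 < s * O P w z p) : Inv P T' s p w z := by
  have hna : ¬ T'.Adj w z := not_adj_of_xn hT'.1 hM.2.1
  obtain ⟨u, v, hFuv, -, h1, h2, h3⟩ := sec V P hP T' hT' w z hM.1.ne hna
  have h1' : 0 < O P w u z := h1
  have h2' : 0 < O P w z v := h2
  have h3' : 0 < O P w u v := h3
  rcases hs with rfl | rfl
  · exact L2gen hP hT hT' hM hF hFuv.1 hFuv.2.1 (by linarith) (by linarith) (by linarith) g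
  · refine L2gen hP hT hT' hM hF hFuv.2.1 hFuv.1 ?_ ?_ ?_ g
    · rw [O_swap]; linarith
    · rw [O_swap]; linarith
    · rw [O_swap]; linarith

/-- the sign of `[q₁, y]` -/
theorem side {s : ℝ} {w z y q₁ : V} (hM : MaxE P T T' w z) (hF : Face P T w z y)
    (h1 : T'.Adj w q₁) (g2 : 0 < s * O P w q₁ z) (g : s * O P w z y < 0) :
    0 ≤ s * O P w q₁ y := by
  have hs : 0 < s ^ 2 := by
    have : s ≠ 0 := by
      rintro rfl
      simp at g
    positivity
  have k1 : 0 < O P w z q₁ * O P w z y := by
    have h3 : s * O P w z q₁ < 0 := by rw [O_swap]; linarith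
    have h := mul_pos_of_neg_of_neg h3 g
    have e : s * O P w z q₁ * (s * O P w z y) = s ^ 2 * (O P w z q₁ * O P w z y) := by ring
    rw [e] at h
    exact (pos_iff_pos_of_mul_pos h).1 hs
  have k2 := not_in hP hT hT' hM hF h1 k1
  by_contra hc
  push Not at hc
  have h := mul_pos_of_neg_of_neg hc g
  have e : s * O P w q₁ y * (s * O P w z y) = s ^ 2 * (O P w q₁ y * O P w z y) := by ring
  rw [e] at h
  have := (pos_iff_pos_of_mul_pos h).1 hs
  linarith

theorem L3 {s : ℝ} {p w z y : V} (hI : Inv P T' s p w z) (hM : MaxE P T T' w z)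
    (hF : Face P T w z y) (g : s * O P w z y < 0) : 0 < s * O P w y p := by
  obtain ⟨q₁, q₂, h1, h2, g1, g2, g3, g4, g5, g6⟩ := hI
  have hs0 : s ≠ 0 := by
    rintro rfl
    simp at g
  have k := side hP hT hT' hM hF h1 g2 g
  have hyz : 0 < s * O P w y z := by rw [O_swap]; linarith
  have e := plu (P := P) w q₁ y z p
  have e2 : (s * O P w q₁ z) * (s * O P w y p) =
      (s * O P w q₁ y) * (s * O P w z p) + (s * O P w q₁ p) * (s * O P w y z) := by
    linear_combination (-(s ^ 2)) * e
  have hpos : 0 < (s * O P w q₁ y) * (s * O P w z p) + (s * O P w q₁ p) * (s * O P w y z) := by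
    rcases k.eq_or_lt with hk | hk
    · -- `y = q₁`
      have hq1y : q₁ = y := by
        by_contra hne
        have h0 : O P w q₁ y = 0 := by
          rcases mul_eq_zero.1 hk.symm with h | h
          · exact absurd h hs0
          · exact h
        exact hP.col w q₁ y h1.ne hF.2.1.ne hne h0
      have hp : 0 < s * O P w q₁ p := by
        rcases g4.eq_or_lt with hp | hp
        · exfalso
          have h0 : O P w q₁ p = 0 := by
            rcases mul_eq_zero.1 hp.symm with h | h
            · exact absurd h hs0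
            · exact h
          have hqp : q₁ = p := by
            by_contra hne
            refine hP.col w q₁ p h1.ne ?_ hne h0
            rintro rfl
            have : O P w z w = 0 := by unfold O; simp
            rw [this, mul_zero] at g6
            exact lt_irrefl _ g6
          rw [← hqp, hq1y] at g6
          linarith
        · exact hp
      rw [← hk, zero_mul, zero_add]
      exact mul_pos hp hyz
    · have := mul_pos hk g6
      have := mul_nonneg g4 hyz.le
      linarith
  rw [← e2] at hpos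
  exact (pos_iff_pos_of_mul_pos hpos).1 g2

theorem L1 {s : ℝ} {p w z y : V} (hI : Inv P T' s p w z) (hM : MaxE P T T' w z)
    (hM' : MaxE P T T' w y) (hF : Face P T w z y) (g : s * O P w z y < 0) :
    Inv P T' s p w y := by
  have hyp := L3 hP hT hT' hI hM hF g
  obtain ⟨q₁, q₂, h1, h2, g1, g2, g3, g4, g5, g6⟩ := hI
  have hs0 : s ≠ 0 := by
    rintro rfl
    simp at g
  have k := side hP hT hT' hM hF h1 g2 g
  have hyz : 0 < s * O P w y z := by rw [O_swap]; linarith
  have hna : ¬ T'.Adj w y := not_adj_of_xn hT'.1 hM'.2.1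
  have hq1y : q₁ ≠ y := by
    rintro rfl
    exact hna h1
  have k' : 0 < s * O P w q₁ y := by
    rcases k.eq_or_lt with hk | hk
    · exfalso
      have h0 : O P w q₁ y = 0 := by
        rcases mul_eq_zero.1 hk.symm with h | h
        · exact absurd h hs0
        · exact h
      exact hP.col w q₁ y h1.ne hF.2.1.ne hq1y h0
    · exact hk
  refine ⟨q₁, q₂, h1, h2, g1, k', ?_, g4, g5, hyp⟩
  have e := plu (P := P) w q₁ y z q₂
  have e2 : (s * O P w q₁ z) * (s * O P w y q₂) =
      (s * O P w q₁ y) * (s * O P w z q₂) + (s * O P w q₁ q₂) * (s * O P w y z) := by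
    linear_combination (-(s ^ 2)) * e
  have h3 := mul_pos k' g3
  have h4 := mul_pos g1 hyz
  have hpos : 0 < (s * O P w q₁ z) * (s * O P w y q₂) := by rw [e2]; linarith
  exact (pos_iff_pos_of_mul_pos hpos).1 g2

end

/-- the faces of `w z y` in other orders -/
theorem face_rot {a b c : V} (h : Face P T a b c) : Face P T b c a :=
  ⟨h.2.2.1, h.1.symm, h.2.1.symm, fun x hx => h.2.2.2 x (inTri_cyc (inTri_cyc hx))⟩

/-- a state -/
structure St (V : Type) where
  w' : V
  w : V
  z' : V
  z : V

/-- good states -/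
def Good [Fintype V] (P : V → Pt) (T T' : SimpleGraph V) (x : St V) : Prop :=
  MaxE P T T' x.w x.z ∧ Inv P T' 1 x.w' x.w x.z ∧ Inv P T' (-1) x.z' x.z x.w

theorem crs_sub_orient (a b c : Pt) : crs (b - a) (c - a) = orient a b c := by
  unfold crs orient
  simp only [Prod.fst_sub, Prod.snd_sub]
  ring

theorem points_sides [Fintype V] (hP : GP P) (hT : IsTri P T) {w z : V}
    (hM : MaxE P T T' w z) : ∃ y, O P w z y < 0 ∧ Face P T w z y := by
  obtain ⟨e, he⟩ := Finset.card_pos.1 hM.2.1
  rw [mem_xs] at he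
  have h1 := he.2.1
  -- one of the end points is on the right
  have h2 : ∃ p, 0 < orient (P z) (P w) (P p) := by
    rcases Run7.h651.HT.STRIP.neg_cases' h1 with ⟨f, -⟩ | ⟨-, f⟩
    · exact ⟨e.1, by rw [orient_swap]; linarith⟩
    · exact ⟨e.2, by rw [orient_swap]; linarith⟩
  obtain ⟨p, hp⟩ := h2
  obtain ⟨c, hc1, hc2⟩ := face V P hP T hT z w p hM.1.symm hp
  refine ⟨c, ?_, face_swap hc2⟩
  have : O P w z c = - orient (P z) (P w) (P c) := by unfold O orient; ring
  linarith

theorem points_left [Fintype V] (hP : GP P) (hT : IsTri P T) {w z : V}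
    (hM : MaxE P T T' w z) : ∃ y, 0 < O P w z y ∧ Face P T w z y := by
  obtain ⟨y, h1, h2⟩ := points_sides hP hT (maxE_swap hM)
  refine ⟨y, ?_, face_swap h2⟩
  rw [O_swap1]
  linarith

theorem strip : S_STRIP := by
  intro V _ P hP T T' hT hT' hex hside
  classical
  obtain ⟨w, z, hwz⟩ := hex
  -- the first state
  obtain ⟨p, hp1, hp2⟩ := points_left hP hT hwz
  have hx0 : Good P T T' ⟨p, w, p, z⟩ := by
    refine ⟨hwz, L2 hP hT hT' (Or.inl rfl) hwz hp2 (by linarith), ?_⟩
    refine L2 hP hT hT' (Or.inr rfl) (maxE_swap hwz) (face_swap hp2) ?_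
    rw [O_swap1]
    linarith
  -- the next state
  have hnext : ∀ x : {x : St V // Good P T T' x}, ∃ (x' : {x : St V // Good P T T' x}) (A : Prop),
      (A → crs (P x.1.w - P x.1.w') (P x'.1.w - P x'.1.w') > 0 ∧
        crs (P x'.1.w - P x'.1.w') (P x.1.z - P x.1.w) > 0 ∧ x'.1.z' = x.1.z' ∧ x'.1.z = x.1.z) ∧
      (¬ A → crs (P x'.1.z - P x'.1.z') (P x.1.z - P x.1.z') > 0 ∧
        crs (P x'.1.z - P x'.1.z') (P x.1.z - P x.1.w) > 0 ∧ x'.1.w' = x.1.w' ∧
          x'.1.w = x.1.w) := by
    rintro ⟨⟨w', w, z', z⟩, hM, hI1, hI2⟩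
    simp only at hM hI1 hI2
    obtain ⟨y, hy1, hy2⟩ := points_sides hP hT hM
    have hMs := maxE_swap hM
    have hF2 := face_swap hy2
    have hy3 : 0 < O P z w y := by rw [O_swap1]; linarith
    by_cases hcase : xn P T' z y = xn P T' w z
    · -- `z y` is maximal
      have hzy : MaxE P T T' z y := by
        refine ⟨hy2.2.2.1, by rw [hcase]; exact hM.2.1, fun i j hij => ?_⟩
        rw [hcase]
        exact hM.2.2 i j hij
      have g1 : Inv P T' 1 w y z := by
        refine L2 hP hT hT' (Or.inl rfl) (maxE_swap hzy) (face_swap (face_rot hy2)) ?_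
        rw [← O_cyc w y z, O_swap]
        linarith
      have g2 : Inv P T' (-1) z' z y := L1 hP hT hT' hI2 hMs hzy hF2 (by linarith)
      refine ⟨⟨⟨w, y, z', z⟩, maxE_swap hzy, g1, g2⟩, True, fun _ => ⟨?_, ?_, rfl, rfl⟩,
        fun h => absurd trivial h⟩
      · have h := L3 hP hT hT' hI1 hM hy2 (by linarith)
        have e : crs (P w - P w') (P y - P w) = O P w y w' := by
          unfold O crs orient
          simp only [Prod.fst_sub, Prod.snd_sub]
          ring
        simp only
        rw [e]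
        linarith
      · have e : crs (P y - P w) (P z - P w) = - O P w z y := by
          unfold O crs orient
          simp only [Prod.fst_sub, Prod.snd_sub]
          ring
        simp only
        rw [e]
        linarith
    · -- `w y` is maximal
      have hcase' : xn P T' w y = xn P T' w z := by
        rcases hside w z y hM hy2 with h | h
        · exact h
        · exact absurd h hcase
      have hwy : MaxE P T T' w y := by
        refine ⟨hy2.2.1, by rw [hcase']; exact hM.2.1, fun i j hij => ?_⟩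
        rw [hcase']
        exact hM.2.2 i j hij
      have g1 : Inv P T' 1 w' w y := L1 hP hT hT' hI1 hM hwy hy2 (by linarith)
      have g2 : Inv P T' (-1) z y w := by
        refine L2 hP hT hT' (Or.inr rfl) (maxE_swap hwy) (face_rot (face_rot hy2)) ?_
        rw [O_cyc y w z]
        linarith
      refine ⟨⟨⟨w', w, z, y⟩, hwy, g1, g2⟩, False, fun h => h.elim, fun _ => ⟨?_, ?_, rfl, rfl⟩⟩
      · have h := L3 hP hT hT' hI2 hMs hF2 (by linarith)
        have e : crs (P y - P z) (P z - P z') = - O P z y z' := by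
          unfold O crs orient
          simp only [Prod.fst_sub, Prod.snd_sub]
          ring
        simp only
        rw [e]
        linarith
      · have e : crs (P y - P z) (P z - P w) = - O P w z y := by
          unfold O crs orient
          simp only [Prod.fst_sub, Prod.snd_sub]
          ring
        simp only
        rw [e]
        linarith
  choose f A hfA hfnA using hnext
  -- a periodic orbit
  have hfin : Finite (St V) := by
    have : Function.Injective (fun x : St V => (x.w', x.w, x.z', x.z)) := by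
      rintro ⟨a, b, c, d⟩ ⟨a', b', c', d'⟩ h
      simp only [Prod.mk.injEq] at h
      obtain ⟨rfl, rfl, rfl, rfl⟩ := h
      rfl
    exact Finite.of_injective _ this
  set x0 : {x : St V // Good P T T' x} := ⟨_, hx0⟩ with hx0def
  obtain ⟨n, m, hnm, heq⟩ := Finite.exists_ne_map_eq_of_infinite (fun n : ℕ => f^[n] x0)
  wlog hlt : n < m generalizing n m
  · exact this m n hnm.symm heq.symm (by omega)
  set L := m - n with hL
  have hL0 : 0 < L := by omega
  set x1 := f^[n] x0 with hx1
  have hper : f^[L] x1 = x1 := by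
    rw [hx1, ← Function.iterate_add_apply, show L + n = m by omega, ← heq]
  -- the sequences
  refine Run7.h651.HT.TURN.turn (fun i => P (f^[i] x1).1.w - P (f^[i] x1).1.w')
    (fun i => P (f^[i] x1).1.z - P (f^[i] x1).1.z')
    (fun i => P (f^[i] x1).1.z - P (f^[i] x1).1.w) (fun i => A (f^[i] x1)) L hL0 ?_ ?_ ?_ ?_ ?_
  · simp only [hper, Function.iterate_zero, id_eq]
  · simp only [hper, Function.iterate_zero, id_eq]
  · intro i _
    obtain ⟨hM, hI1, hI2⟩ := (f^[i] x1).2
    obtain ⟨-, -, -, -, -, -, -, -, -, g1⟩ := hI1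
    obtain ⟨-, -, -, -, -, -, -, -, -, g2⟩ := hI2
    constructor
    · have e : crs (P (f^[i] x1).1.w - P (f^[i] x1).1.w') (P (f^[i] x1).1.z - P (f^[i] x1).1.w) =
          O P (f^[i] x1).1.w (f^[i] x1).1.z (f^[i] x1).1.w' := by
        unfold O crs orient
        simp only [Prod.fst_sub, Prod.snd_sub]
        ring
      rw [e]
      linarith
    · have e : crs (P (f^[i] x1).1.z - P (f^[i] x1).1.z') (P (f^[i] x1).1.z - P (f^[i] x1).1.w) =
          - O P (f^[i] x1).1.z (f^[i] x1).1.w (f^[i] x1).1.z' := by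
        unfold O crs orient
        simp only [Prod.fst_sub, Prod.snd_sub]
        ring
      rw [e]
      linarith
  · intro i _ hA
    obtain ⟨k1, k2, k3, k4⟩ := hfA (f^[i] x1) hA
    simp only [Function.iterate_succ_apply']
    refine ⟨?_, k1, k2⟩
    rw [k3, k4]
  · intro i _ hA
    obtain ⟨k1, k2, k3, k4⟩ := hfnA (f^[i] x1) hA
    simp only [Function.iterate_succ_apply']
    refine ⟨?_, k1, k2⟩
    rw [k3, k4]

end Run7.h651.HT.STRIP
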