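import Pool.Agent.Run7.h397.HT.Iface

set_option autoImplicit false

/-! # CC: the corner lemma -/

namespace Run7.h651.HT.CC

open Run7.h397 Run7.h397.HT

theorem sgn {Gx Gy au av : ℝ} (h1 : av - au = Gx - Gy) (h2 : au * av < 0) (h3 : Gx * Gy < 0) :
    0 < Gx * av ∧ 0 < -(Gx * au) := by
  rcases lt_trichotomy Gx 0 with hx | hx | hx
  · have hy : 0 < Gy := by
      by_contra h; push Not at h
      nlinarith [mul_nonneg_of_nonpos_of_nonpos hx.le h]
    have h4 : av < au := by linarith
    have hv : av < 0 := by
      by_contra h; push Not at h
      nlinarith [mul_nonneg h (h.trans h4.le)]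
    have hu : 0 < au := by
      by_contra h; push Not at h
      nlinarith [mul_nonneg_of_nonpos_of_nonpos h hv.le]
    exact ⟨mul_pos_of_neg_of_neg hx hv, by nlinarith [mul_neg_of_neg_of_pos hx hu]⟩
  · rw [hx, zero_mul] at h3; exact absurd h3 (lt_irrefl _)
  · have hy : Gy < 0 := by
      by_contra h; push Not at h
      nlinarith [mul_nonneg hx.le h]
    have h4 : au < av := by linarith
    have hv : 0 < av := by
      by_contra h; push Not at h
      nlinarith [mul_nonneg_of_nonpos_of_nonpos h (h4.le.trans h)]
    have hu : au < 0 := by
      by_contra h; push Not at h
      nlinarith [mul_nonneg h hv.le]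
    exact ⟨mul_pos hx hv, by nlinarith [mul_neg_of_pos_of_neg hx hu]⟩

theorem cc : S_CC := by
  intro x y z l u v hD h1 h2 h3
  obtain ⟨h1a, h1b⟩ := h1
  obtain ⟨h2a, h2b⟩ := h2
  have hs1 := sgn (Gx := orient u v x) (Gy := orient u v y) (au := orient x y u)
    (av := orient x y v) (by unfold orient; ring) h2a h2b
  have e1 : orient x y v * orient x l u - orient x y u * orient x l v =
      orient u v x * orient x l y := by unfold orient; ring
  have hGx : orient u v x ≠ 0 := by
    intro h; rw [h, zero_mul] at h2b; exact lt_irrefl _ h2b
  have hGx2 : 0 < orient u v x ^ 2 := by positivity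
  have bary : orient y z x * orient u v l = orient y z l * orient u v x +
      orient x l z * orient u v y + (-orient x l y) * orient u v z := by
    unfold orient; ring
  have hsum : orient y z x = orient y z l + orient x l z + (-orient x l y) := by
    unfold orient; ring
  -- signs of the barycentric coordinates
  have hD' : orient y z x ≠ 0 := by rw [orient_cyc x y z]; exact hD
  have hD2 : 0 < orient y z x ^ 2 := by positivity
  have hα : 0 < orient y z x * orient x l z ∧ 0 < orient y z x * (-orient x l y) := by
    have hp : 0 < orient x l z * (-orient x l y) := by nlinarith
    have hq : 0 < orient y z x * (orient x l z + (-orient x l y)) := by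
      have : orient x l z + (-orient x l y) = orient y z x - orient y z l := by linarith
      rw [this]
      nlinarith
    rcases pos_and_pos_or_neg_and_neg_of_mul_pos hp with ⟨ha, hb⟩ | ⟨ha, hb⟩
    · have : 0 < orient y z x := by
        by_contra h; push Not at h
        nlinarith [mul_nonneg (neg_nonneg.2 h) (add_pos ha hb).le]
      exact ⟨mul_pos this ha, mul_pos this hb⟩
    · have : orient y z x < 0 := by
        by_contra h; push Not at h
        nlinarith [mul_nonneg h (neg_pos.2 (add_neg ha hb)).le]
      exact ⟨mul_pos_of_neg_of_neg this ha, mul_pos_of_neg_of_neg this hb⟩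
  -- second half
  have main2 : orient u v x * orient u v z ≤ 0 → orient u v x * orient u v l < 0 := by
    intro hz
    have e : orient y z x ^ 2 * (orient u v x * orient u v l) =
        (orient y z x * orient y z l) * orient u v x ^ 2 +
        (orient y z x * orient x l z) * (orient u v x * orient u v y) +
        (orient y z x * (-orient x l y)) * (orient u v x * orient u v z) := by
      have : orient y z x ^ 2 * (orient u v x * orient u v l) =
          (orient y z x * orient u v x) * (orient y z x * orient u v l) := by ring
      rw [this, bary]; ring
    have t1 : (orient y z x * orient y z l) * orient u v x ^ 2 < 0 :=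
      mul_neg_of_neg_of_pos h1a hGx2
    have t2 : (orient y z x * orient x l z) * (orient u v x * orient u v y) < 0 :=
      mul_neg_of_pos_of_neg hα.1 h2b
    have t3 : (orient y z x * (-orient x l y)) * (orient u v x * orient u v z) ≤ 0 :=
      mul_nonpos_of_nonneg_of_nonpos hα.2.le hz
    by_contra h
    push Not at h
    have := mul_nonneg hD2.le h
    linarith
  have hA := hs1.1
  have hB := hs1.2
  have E1 : (orient u v x * orient x y v) * orient x l u +
      (-(orient u v x * orient x y u)) * orient x l v = orient u v x ^ 2 * orient x l y := by
    linear_combination orient u v x * e1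
  rcases h3 with h3 | h3 | h3
  · obtain ⟨h3a, h3b⟩ := h3
    have hs2 := sgn (Gx := orient u v x) (Gy := orient u v z) (au := orient x z u)
      (av := orient x z v) (by unfold orient; ring) h3a h3b
    have e2 : orient x z v * orient x l u - orient x z u * orient x l v =
      orient u v x * orient x l z := by unfold orient; ring
    have E2 : (orient u v x * orient x z v) * orient x l u +
        (-(orient u v x * orient x z u)) * orient x l v = orient u v x ^ 2 * orient x l z := by
      linear_combination orient u v x * e2
    refine ⟨?_, main2 h3b.le⟩
    by_contra h
    push Not at h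
    have hC := hs2.1
    have hE := hs2.2
    have hprod : ((orient u v x * orient x y v) * orient x l u +
      (-(orient u v x * orient x y u)) * orient x l v) * ((orient u v x * orient x z v) * orient x l u +
        (-(orient u v x * orient x z u)) * orient x l v) < 0 := by
      rw [E1, E2]
      have : orient u v x ^ 2 * orient x l y * (orient u v x ^ 2 * orient x l z) =
        (orient u v x ^ 2) ^ 2 * (orient x l y * orient x l z) := by ring
      rw [this]
      exact mul_neg_of_pos_of_neg (by positivity) h1b
    set A := orient u v x * orient x y v
    set B := -(orient u v x * orient x y u)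
    set C := orient u v x * orient x z v
    set E := -(orient u v x * orient x z u)
    have q1 : 0 ≤ (A * C) * orient x l u ^ 2 := by positivity
    have q2 : 0 ≤ (A * E + B * C) * (orient x l u * orient x l v) := by positivity
    have q3 : 0 ≤ (B * E) * orient x l v ^ 2 := by positivity
    nlinarith
  · subst h3
    have hz0 : orient z v z = 0 := by simp
    refine ⟨?_, main2 (by rw [hz0, mul_zero])⟩
    by_contra h
    push Not at h
    have hprod : ((orient z v x * orient x y v) * orient x l z +
      (-(orient z v x * orient x y z)) * orient x l v) * orient x l z < 0 := by
      rw [E1]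
      have : orient z v x ^ 2 * orient x l y * orient x l z =
        orient z v x ^ 2 * (orient x l y * orient x l z) := by ring
      rw [this]
      exact mul_neg_of_pos_of_neg hGx2 h1b
    set A := orient z v x * orient x y v
    set B := -(orient z v x * orient x y z)
    have q1 : 0 ≤ A * orient x l z ^ 2 := by positivity
    have q2 : 0 ≤ B * (orient x l z * orient x l v) := by positivity
    nlinarith
  · subst h3
    have hz0 : orient u z z = 0 := by simp
    refine ⟨?_, main2 (by rw [hz0, mul_zero])⟩
    by_contra h
    push Not at h
    have hprod : ((orient u z x * orient x y z) * orient x l u +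
      (-(orient u z x * orient x y u)) * orient x l z) * orient x l z < 0 := by
      rw [E1]
      have : orient u z x ^ 2 * orient x l y * orient x l z =
        orient u z x ^ 2 * (orient x l y * orient x l z) := by ring
      rw [this]
      exact mul_neg_of_pos_of_neg hGx2 h1b
    set A := orient u z x * orient x y z
    set B := -(orient u z x * orient x y u)
    have q1 : 0 ≤ B * orient x l z ^ 2 := by positivity
    have q2 : 0 ≤ A * (orient x l u * orient x l z) := by positivity
    nlinarith

end Run7.h651.HT.CC
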