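import Pool.Agent.Run7.h651.HT.CC
import Pool.Agent.Run7.h376.HT.SEC

set_option autoImplicit false

/-! # ISEC: no neighbour in `T'` inside the angle of a face at a maximal edge -/

namespace Run7.h651.HT.ISEC

open Run7.h397 Run7.h397.HT Run7.h376.HT

theorem isec : S_ISEC := by
  intro V _ P hP T T' _ hT' a b c q hM hF hq h1 h2
  obtain ⟨hab, hac, hbc, hE⟩ := hF
  have hor : orient (P a) (P b) (P c) ≠ 0 := hP.col a b c hab.ne hac.ne hbc.ne
  have hqb : b ≠ q := by
    rintro rfl
    simp at h1
  have hqc : c ≠ q := by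
    rintro rfl
    simp at h2
  have hbcq : orient (P b) (P c) (P q) ≠ 0 := hP.col b c q hbc.ne hqb hqc
  have hneg : orient (P b) (P c) (P q) * orient (P a) (P b) (P c) < 0 := by
    rcases lt_trichotomy (orient (P b) (P c) (P q) * orient (P a) (P b) (P c)) 0 with h | h | h
    · exact h
    · exact absurd h (mul_ne_zero hbcq hor)
    · exfalso
      refine hE q ⟨h1, h, ?_⟩
      rw [← orient_cyc (P c) (P a) (P q)]
      exact h2
  have hX : X P b c a q := by
    refine ⟨?_, ?_⟩
    · rw [orient_cyc (P a) (P b) (P c)]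
      linarith [mul_comm (orient (P b) (P c) (P q)) (orient (P a) (P b) (P c))]
    · rw [orient_swap' (P a) (P b) (P q)]
      have hD2 : 0 < orient (P a) (P b) (P c) ^ 2 := by positivity
      have h3 : 0 < (orient (P a) (P b) (P q) * orient (P a) (P b) (P c)) *
          (orient (P a) (P q) (P c) * orient (P a) (P b) (P c)) := mul_pos h1 h2
      have h4 : (orient (P a) (P b) (P q) * orient (P a) (P b) (P c)) *
          (orient (P a) (P q) (P c) * orient (P a) (P b) (P c)) =
          orient (P a) (P b) (P c) ^ 2 * (orient (P a) (P b) (P q) * orient (P a) (P q) (P c)) := by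
        ring
      rw [h4] at h3
      have h5 := (pos_iff_pos_of_mul_pos h3).1 hD2
      linarith
  have hsub : xs P T' a b ⊆ xs P T' b c := by
    intro e he
    rw [mem_xs] at he ⊢
    refine ⟨he.1, ?_⟩
    have hcr : ∀ h : (Cr (P a) (P c) (P e.1) (P e.2) ∨ P c = P e.1 ∨ P c = P e.2), X P b c e.1 e.2 := by
      intro h
      exact absurd (Run7.h651.HT.CC.cc (P a) (P b) (P c) (P q) (P e.1) (P e.2) hor hX he.2 h)
        (hT'.1 a q e.1 e.2 hq he.1)
    rcases exit' hP hor he.2 (hE e.1) (hE e.2) with h | h | h | h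
    · exact hcr (Or.inr (Or.inl (by rw [h])))
    · exact hcr (Or.inr (Or.inr (by rw [h])))
    · exact h
    · exact hcr (Or.inl ((cr_swap1 _ _ _ _).1 h))
  have hlt : xn P T' a b < xn P T' b c := by
    unfold xn
    refine Finset.card_lt_card (Finset.ssubset_iff_subset_ne.2 ⟨hsub, fun h => ?_⟩)
    have h3 : (a, q) ∈ xs P T' b c := mem_xs.2 ⟨hq, hX⟩
    rw [← h, mem_xs] at h3
    exact not_cr_left _ _ _ h3.2
  exact absurd (hM.2.2 b c hbc) (not_le.2 hlt)

end Run7.h651.HT.ISEC
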